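import Mathlib
import Pool.Agent.H.MP_f027b3_co.B

namespace Pool.Agent.H.MP_67e79f_co

open Pool.Agent.H.MP_f027b3_co

variable {V : Type}

theorem goodN {G : SimpleGraph V} {f : V → V → ℝ} (h : GoodS G f) (L : ℕ) (c : ℕ → V)
    (h3 : 3 ≤ L) (hc : c L = c 0) (ha : ∀ t < L, G.Adj (c t) (c (t + 1)))
    (hi : ∀ a b, a < L → b < L → c a = c b → a = b) :
    ∃ i j : ℕ, i < L ∧ j < L ∧ i ≠ j ∧
      f (c ((i + 1) % L)) (c ((i + 1) % L + 1)) < f (c i) (c (i + 1)) ∧
      f (c ((i + L - 1) % L)) (c ((i + L - 1) % L + 1)) < f (c i) (c (i + 1)) ∧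
      f (c ((j + 1) % L)) (c ((j + 1) % L + 1)) < f (c j) (c (j + 1)) ∧
      f (c ((j + L - 1) % L)) (c ((j + L - 1) % L + 1)) < f (c j) (c (j + 1)) := by
  have hL0 : (0 : ℤ) < L := by omega
  obtain ⟨r, hr⟩ : ∃ r : ℤ → ℕ, r = fun t : ℤ => (t % (L : ℤ)).toNat := ⟨_, rfl⟩
  have r1 : ∀ t, (r t : ℤ) = t % L := fun t => by
    rw [hr]; exact Int.toNat_of_nonneg (Int.emod_nonneg _ hL0.ne')
  have r2 : ∀ t, r t < L := fun t => by
    have := Int.emod_lt_of_pos t hL0
    have := r1 t
    omega
  have r3 : ∀ t, r (t + 1) = (r t + 1) % L := fun t => by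
    apply Nat.cast_injective (R := ℤ)
    push_cast
    rw [r1, r1, Int.emod_add_emod]
  have r4 : ∀ t, r (t - 1) = (r t + L - 1) % L := fun t => by
    apply Nat.cast_injective (R := ℤ)
    rw [Int.natCast_mod, Nat.cast_sub (by omega)]
    push_cast
    rw [r1, r1, Int.emod_eq_emod_iff_emod_sub_eq_zero]
    have := Int.emod_add_mul_ediv t L
    have e : t - 1 - (t % L + L - 1) = L * (t / L - 1) := by linarith
    rw [e, Int.mul_emod_right]
  have r5 : ∀ t, c (r (t + 1)) = c (r t + 1) := fun t => by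
    rw [r3]
    by_cases e : r t + 1 < L
    · rw [Nat.mod_eq_of_lt e]
    · have : r t + 1 = L := by have := r2 t; omega
      rw [this, Nat.mod_self, hc]
  have r6 : ∀ a b : ℤ, a < b → b < a + L → r a ≠ r b := by
    intro a b h1 h2 e
    have e' : b % L = a % L := by rw [← r1, ← r1, e]
    rw [Int.emod_eq_emod_iff_emod_sub_eq_zero, Int.emod_eq_of_lt (by omega) (by omega)] at e'
    omega
  obtain ⟨i, j, h1, h2, ⟨a1, a2⟩, b1, b2⟩ := h L (fun t => c (r t)) ⟨h3, fun t => by
      have : r (t + L) = r t := by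
        apply Nat.cast_injective (R := ℤ)
        rw [r1, r1, Int.add_emod_right]
      simp only [this], fun t => by
      simp only [r5]
      exact ha _ (r2 t), fun a b h1 h2 e => r6 a b h1 h2 (hi _ _ (r2 a) (r2 b) e)⟩
  have k1 : ∀ t, c (r t) = c (r (t - 1) + 1) := fun t => by
    rw [← r5]; simp
  refine ⟨r i, r j, r2 i, r2 j, r6 i j h1 h2, ?_, ?_, ?_, ?_⟩
  · rw [← r3, ← r5, ← r5]; exact a1
  · rw [← r4, ← k1, ← r5]; exact a2
  · rw [← r3, ← r5, ← r5]; exact b1
  · rw [← r4, ← k1, ← r5]; exact b2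

theorem uniq {G : SimpleGraph V} {f : V → V → ℝ} (hs : ∀ a b, f a b = f b a) (h : GoodS G f)
    {x y : V} (p q : G.Walk x y) (hp : p.IsPath) (hq : q.IsPath)
    (ip : ∀ i, i + 2 ≤ p.length →
      f (p.getVert i) (p.getVert (i + 1)) ≤ f (p.getVert (i + 1)) (p.getVert (i + 2)))
    (iq : ∀ i, i + 2 ≤ q.length →
      f (q.getVert i) (q.getVert (i + 1)) ≤ f (q.getVert (i + 1)) (q.getVert (i + 2))) :
    p = q := by
  classical
  by_contra hne
  have ex : ∃ k, p.getVert k ≠ q.getVert k := by
    by_contra hall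
    push Not at hall
    exact hne (SimpleGraph.Walk.ext_getVert hall)
  have jp : ∀ a b, a ≤ p.length → b ≤ p.length → p.getVert a = p.getVert b → a = b :=
    fun a b ha hb e => hp.getVert_injOn ha hb e
  have jq : ∀ a b, a ≤ q.length → b ≤ q.length → q.getVert a = q.getVert b → a = b :=
    fun a b ha hb e => hq.getVert_injOn ha hb e
  obtain ⟨i, h1, h2⟩ : ∃ i, p.getVert (i + 1) ≠ q.getVert (i + 1) ∧
      p.getVert i = q.getVert i := by
    have a := Nat.find_spec ex
    have b : Nat.find ex ≠ 0 := fun e => by rw [e] at a; simp at a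
    obtain ⟨i, hi⟩ := Nat.exists_eq_succ_of_ne_zero b
    have c := Nat.find_min ex (m := i) (by omega)
    rw [hi] at a
    exact ⟨i, a, not_not.1 c⟩
  have lp : i < p.length := by
    by_contra c
    rw [p.getVert_of_length_le (by omega)] at h1 h2
    by_cases d : i ≤ q.length
    · have := jq _ _ d le_rfl (by rw [← h2, q.getVert_length])
      exact h1 (q.getVert_of_length_le (by omega)).symm
    · exact h1 (q.getVert_of_length_le (by omega)).symm
  have lq : i < q.length := by
    by_contra c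
    rw [q.getVert_of_length_le (by omega)] at h1 h2
    have := jp _ _ lp.le le_rfl (by rw [h2, p.getVert_length])
    omega
  have ex2 : ∃ d, 1 ≤ d ∧ i + d ≤ p.length ∧ ∃ e, 1 ≤ e ∧ i + e ≤ q.length ∧
      p.getVert (i + d) = q.getVert (i + e) :=
    ⟨p.length - i, by omega, by omega, q.length - i, by omega, by omega, by
      rw [p.getVert_of_length_le (by omega), q.getVert_of_length_le (by omega)]⟩
  obtain ⟨d, ⟨d1, d2, e, e1, e2, hde⟩, dmin⟩ : ∃ d, (1 ≤ d ∧ i + d ≤ p.length ∧ ∃ e, 1 ≤ e ∧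
      i + e ≤ q.length ∧ p.getVert (i + d) = q.getVert (i + e)) ∧ ∀ d' < d, ¬ (1 ≤ d' ∧
      i + d' ≤ p.length ∧ ∃ e, 1 ≤ e ∧ i + e ≤ q.length ∧
      p.getVert (i + d') = q.getVert (i + e)) :=
    ⟨Nat.find ex2, Nat.find_spec ex2, fun d' hd => Nat.find_min ex2 hd⟩
  obtain ⟨c, c1, c2⟩ : ∃ c : ℕ → V, (∀ t ≤ d, c t = p.getVert (i + t)) ∧
      ∀ t, d ≤ t → c t = q.getVert (i + (d + e - t)) := by
    refine ⟨fun t => if t ≤ d then p.getVert (i + t) else q.getVert (i + (d + e - t)),
      fun t ht => if_pos ht, fun t ht => ?_⟩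
    by_cases g : t ≤ d
    · have : t = d := by omega
      subst this
      simp only [le_refl, if_true, hde, Nat.add_sub_cancel_left]
    · exact if_neg g
  have h3 : 3 ≤ d + e := by
    by_contra g
    have : d = 1 := by omega
    have : e = 1 := by omega
    subst_vars
    exact h1 hde
  have up : ∀ t, t + 1 < d → f (c t) (c (t + 1)) ≤ f (c (t + 1)) (c (t + 1 + 1)) := by
    intro t ht
    rw [c1 _ (by omega), c1 _ (by omega), c1 _ (by omega)]
    exact ip (i + t) (by omega)
  have dn : ∀ t, d ≤ t → t + 1 < d + e → f (c (t + 1)) (c (t + 1 + 1)) ≤ f (c t) (c (t + 1)) := by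
    intro t ht ht'
    rw [c2 _ (by omega), c2 _ (by omega), c2 _ (by omega), hs, hs (q.getVert (i + (d + e - t)))]
    have := iq (i + (d + e - (t + 1 + 1))) (by omega)
    rw [show i + (d + e - (t + 1 + 1)) + 1 = i + (d + e - (t + 1)) by omega,
      show i + (d + e - (t + 1 + 1)) + 2 = i + (d + e - t) by omega] at this
    exact this
  have loc : ∀ u, u < d + e →
      f (c ((u + 1) % (d + e))) (c ((u + 1) % (d + e) + 1)) < f (c u) (c (u + 1)) →
      f (c ((u + (d + e) - 1) % (d + e))) (c ((u + (d + e) - 1) % (d + e) + 1)) <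
        f (c u) (c (u + 1)) → (u + 1 = d ∧ f (c d) (c (d + 1)) < f (c (d - 1)) (c d)) ∨
          (u = d ∧ f (c (d - 1)) (c d) < f (c d) (c (d + 1))) := by
    intro u hu a b
    rcases lt_trichotomy (u + 1) d with g | g | g
    · rw [Nat.mod_eq_of_lt (by omega)] at a
      exact absurd a (not_lt.2 (up u g))
    · rw [Nat.mod_eq_of_lt (by omega), g] at a
      exact Or.inl ⟨g, by rwa [show d - 1 = u by omega]⟩
    · rw [show u + (d + e) - 1 = u - 1 + (d + e) by omega, Nat.add_mod_right,
        Nat.mod_eq_of_lt (by omega), show u - 1 + 1 = u by omega] at b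
      by_cases g' : u = d
      · exact Or.inr ⟨g', by rwa [g'] at b⟩
      · have := dn (u - 1) (by omega) (by omega)
        rw [show u - 1 + 1 = u by omega] at this
        exact absurd b (not_lt.2 this)
  obtain ⟨u, w, hu, hw, huw, a1, a2, b1, b2⟩ := goodN h (d + e) c h3
    (by rw [c2 _ (by omega), c1 _ (by omega)]; simpa using h2.symm) (by
      intro t ht
      by_cases g : t + 1 ≤ d
      · rw [c1 _ (by omega), c1 _ g]; exact p.adj_getVert_succ (by omega)
      · rw [c2 _ (by omega), c2 _ (by omega),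
          show i + (d + e - t) = i + (d + e - (t + 1)) + 1 by omega]
        exact (q.adj_getVert_succ (by omega)).symm) (by
      have cross : ∀ a b, a < d → d ≤ b → b < d + e → c a ≠ c b := by
        intro a b ha hb hb' g
        rw [c1 _ ha.le, c2 _ hb] at g
        by_cases a0 : a = 0
        · rw [a0, add_zero, h2] at g
          have := jq _ _ (by omega) (by omega) g
          omega
        · exact dmin a ha ⟨by omega, by omega, d + e - b, by omega, by omega, g⟩
      intro a b ha hb g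
      by_cases ga : a < d <;> by_cases gb : b < d
      · rw [c1 _ ga.le, c1 _ gb.le] at g
        have := jp _ _ (by omega) (by omega) g
        omega
      · exact absurd g (cross a b ga (by omega) hb)
      · exact absurd g.symm (cross b a gb (by omega) ha)
      · rw [c2 _ (by omega), c2 _ (by omega)] at g
        have := jq _ _ (by omega) (by omega) g
        omega)
  rcases loc u hu a1 a2 with ⟨k1, k2⟩ | ⟨k1, k2⟩ <;> rcases loc w hw b1 b2 with ⟨k3, k4⟩ | ⟨k3, k4⟩
  · omega
  · linarith
  · linarith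
  · omega

theorem path_tree (n : ℕ) : (SimpleGraph.pathGraph (n + 1)).IsTree := by
  rw [SimpleGraph.isTree_iff_connected_and_card]
  refine ⟨SimpleGraph.pathGraph_connected n, ?_⟩
  have e : Nat.card (Fin n) = Nat.card (SimpleGraph.pathGraph (n + 1)).edgeSet := by
    refine Nat.card_eq_of_bijective (fun i => ⟨s(i.castSucc, i.succ),
      SimpleGraph.pathGraph_adj.2 (Or.inl (by simp))⟩) ⟨?_, ?_⟩
    · intro a b hab
      have h : s(a.castSucc, a.succ) = s(b.castSucc, b.succ) := congrArg Subtype.val hab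
      simp only [Sym2.eq_iff, Fin.ext_iff, Fin.val_castSucc, Fin.val_succ] at h
      exact Fin.ext (by omega)
    · rintro ⟨e, he⟩
      induction e using Sym2.ind with
      | _ u v =>
        rcases SimpleGraph.pathGraph_adj.1 he with h | h
        · have h : u.val + 1 = v.val := h
          exact ⟨⟨u.val, by omega⟩, Subtype.ext (by simp [Fin.ext_iff, h])⟩
        · have h : v.val + 1 = u.val := h
          exact ⟨⟨v.val, by omega⟩, Subtype.ext (by simp [Fin.ext_iff, h])⟩
  rw [← e]; simp

theorem interval_conn (n : ℕ) (S : Set (Fin n)) (a : Fin n) (ha : a ∈ S)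
    (h1 : ∀ t ∈ S, a ≤ t) (h2 : ∀ t ∈ S, ∀ s, a ≤ s → s ≤ t → s ∈ S) :
    ((SimpleGraph.pathGraph n).induce S).Connected := by
  have key : ∀ k (t : Fin n) (ht : t ∈ S), t.val = a.val + k →
      ((SimpleGraph.pathGraph n).induce S).Reachable ⟨t, ht⟩ ⟨a, ha⟩ := by
    intro k
    induction k with
    | zero =>
      intro t ht e
      have : t = a := Fin.ext e
      subst this; rfl
    | succ k ih =>
      intro t ht e
      have hs : (⟨a.val + k, by omega⟩ : Fin n) ∈ S :=
        h2 t ht _ (by simp [Fin.le_def]) (by simp [Fin.le_def]; omega)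
      refine SimpleGraph.Reachable.trans (SimpleGraph.Adj.reachable ?_) (ih _ hs rfl)
      exact SimpleGraph.pathGraph_adj.2 (Or.inr (by simp; omega))
  have : Nonempty S := ⟨⟨a, ha⟩⟩
  refine ⟨fun u v => ?_⟩
  have hu := h1 u.1 u.2
  have hv := h1 v.1 v.2
  exact (key (u.1.val - a.val) u.1 u.2 (by omega)).trans
    (key (v.1.val - a.val) v.1 v.2 (by omega)).symm

end Pool.Agent.H.MP_67e79f_co
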