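import Mathlib
import Pool.Agent.H.MP_67e79f_co.A

namespace Pool.Agent.H.MP_67e79f_co

open Pool.Agent.H.MP_f027b3_co Sum

abbrev Bs (M : ℕ) := Option (Fin (M + 2) × Fin 3)
abbrev Md (M : ℕ) := Fin M × Fin 4 × Bool

variable {M : ℕ}

def ty : Bs M → ℕ
  | none => 0
  | some (_, s) => s.val + 1

def ix : Bs M → ℕ
  | none => 0
  | some (i, _) => i.val

theorem code {a b : Bs M} (h1 : ty a = ty b) (h2 : ix a = ix b) : a = b := by
  rcases a with _ | ⟨i, s⟩ <;> rcases b with _ | ⟨j, t⟩ <;> simp only [ty, ix] at h1 h2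
  · rfl
  · omega
  · omega
  · rw [Fin.ext h2, Fin.ext (show s.val = t.val by omega)]

theorem bnd (a : Bs M) : ix a < M + 2 ∧ ty a ≤ 3 ∧ (ty a = 0 → ix a = 0) := by
  rcases a with _ | ⟨i, s⟩
  · simp [ty, ix]
  · have := i.2
    have := s.2
    simp only [ty, ix]; omega

def PA (k : Md M) : Bs M :=
  some (⟨k.1.val + (if k.2.1.val = 1 then 2 else if k.2.1.val = 3 then 0 else 1), by
    have := k.1.2; split_ifs <;> omega⟩, 0)

def PZ (k : Md M) : Bs M :=
  if k.2.1.val < 2 then some (⟨k.1.val, by have := k.1.2; omega⟩, 1)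
  else some (⟨k.1.val + 2, by have := k.1.2; omega⟩, 2)

theorem poles (k : Md M) : ty (PA k) = 1 ∧
    ((k.2.1.val = 0 ∧ ix (PA k) = k.1.val + 1 ∧ ty (PZ k) = 2 ∧ ix (PZ k) = k.1.val) ∨
     (k.2.1.val = 1 ∧ ix (PA k) = k.1.val + 2 ∧ ty (PZ k) = 2 ∧ ix (PZ k) = k.1.val) ∨
     (k.2.1.val = 2 ∧ ix (PA k) = k.1.val + 1 ∧ ty (PZ k) = 3 ∧ ix (PZ k) = k.1.val + 2) ∨
     (k.2.1.val = 3 ∧ ix (PA k) = k.1.val ∧ ty (PZ k) = 3 ∧ ix (PZ k) = k.1.val + 2)) := by
  obtain ⟨i, t, β⟩ := k
  fin_cases t <;> simp [PA, PZ, ty, ix]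

def lo1 (k : Md M) : Bs M := if k.2.2 then PA k else PZ k
def hi1 (k : Md M) : Bs M := if k.2.2 then PZ k else PA k

def rel1 : Bs M ⊕ Md M → Bs M ⊕ Md M → Prop
  | inl a, inl b => (ty a = 0 ∧ ty b = 1) ∨ (ty a = 1 ∧ ty b = 0) ∨
      (ty a = 1 ∧ 2 ≤ ty b ∧ ix a = ix b) ∨ (ty b = 1 ∧ 2 ≤ ty a ∧ ix a = ix b)
  | inr k, inl b => b = lo1 k ∨ b = hi1 k
  | inl b, inr k => b = lo1 k ∨ b = hi1 k
  | inr _, inr _ => False

def G1 (M : ℕ) : SimpleGraph (Bs M ⊕ Md M) where
  Adj := rel1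
  symm := ⟨by
    rintro (a | k) (b | l) h
    · simp only [rel1] at h ⊢; omega
    exacts [h, h, h]⟩
  loopless := ⟨by
    rintro (a | k) h
    · simp only [rel1] at h; omega
    · exact h⟩

def vl (a : Bs M) : ℕ :=
  if ty a = 1 then M + 2 + ix a else if ty a = 2 then 2 * (M + 2) + ix a else ix a

def m1 (a b : Bs M) : ℝ := if ty a < ty b then vl b else if ty b < ty a then vl a else 0

def St (a b : Bs M) (x : ℕ) : Prop :=
  (ty a = 0 ∧ ty b = 1 ∧ x = M + 2 + ix b) ∨ (ty a = 1 ∧ ty b = 0 ∧ x = M + 2 + ix a) ∨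
  (ty a = 1 ∧ ty b = 2 ∧ ix a = ix b ∧ x = 2 * (M + 2) + ix a) ∨
  (ty a = 1 ∧ ty b = 3 ∧ ix a = ix b ∧ x = ix a) ∨
  (ty a = 2 ∧ ty b = 1 ∧ ix a = ix b ∧ x = 2 * (M + 2) + ix a) ∨
  (ty a = 3 ∧ ty b = 1 ∧ ix a = ix b ∧ x = ix a)

theorem st {a b : Bs M} (h : (G1 M).Adj (inl a) (inl b)) : ∃ x : ℕ, m1 a b = x ∧ St a b x := by
  have ha := bnd a
  have hb := bnd b
  have h' : (ty a = 0 ∧ ty b = 1) ∨ (ty a = 1 ∧ ty b = 0) ∨
      (ty a = 1 ∧ 2 ≤ ty b ∧ ix a = ix b) ∨ (ty b = 1 ∧ 2 ≤ ty a ∧ ix a = ix b) := h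
  by_cases c : ty a < ty b
  · refine ⟨vl b, by simp [m1, c], ?_⟩
    unfold St vl
    split_ifs with d e
    · left; omega
    · right; right; left; omega
    · right; right; right; left; omega
  · refine ⟨vl a, by rw [m1, if_neg c, if_pos (by omega)], ?_⟩
    unfold St vl
    split_ifs with d e
    · right; left; omega
    · right; right; right; right; left; omega
    · right; right; right; right; right; omega

theorem hyp1 (rk : Md M → ℕ) (hrk : Function.Injective rk) :
    Hyp (G1 M) lo1 hi1 m1 rk (3 * (M + 2)) where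
  kk k k' h := h
  kb k b h := h
  lh k e := by
    have := poles k
    unfold lo1 hi1 at e
    split_ifs at e <;> rw [e] at this <;> omega
  inj := by
    intro k k' h1 h2
    have p := poles k
    have p' := poles k'
    have key : PA k = PA k' → PZ k = PZ k' → k.2.2 = k'.2.2 → k = k' := by
      intro a b c
      rw [a, b] at p
      exact Prod.ext (Fin.ext (by omega)) (Prod.ext (Fin.ext (by omega)) c)
    unfold lo1 at h1
    unfold hi1 at h2
    split_ifs at h1 h2 with a b b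
    · exact key h1 h2 (by rw [a, b])
    · rw [h1] at p; omega
    · rw [h2] at p; omega
    · exact key h2 h1 (by simp_all)
  rki := hrk
  m0 a b := by unfold m1; split_ifs <;> positivity
  m1 a b := by
    have h : ∀ a : Bs M, (vl a : ℝ) ≤ 3 * (M + 2) := fun a => by
      have := bnd a
      have : vl a ≤ 3 * (M + 2) := by unfold vl; split_ifs <;> omega
      exact_mod_cast this
    unfold m1
    split_ifs
    exacts [h b, h a, by positivity]
  ms a b := by
    unfold m1
    split_ifs <;> first | rfl | omega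
  mi a b c d h1 h2 e := by
    obtain ⟨x, e1, q1⟩ := st h1
    obtain ⟨y, e2, q2⟩ := st h2
    have : x = y := by rw [e1, e2] at e; exact_mod_cast e
    have := bnd a
    have := bnd b
    have := bnd c
    have := bnd d
    rcases q1 with q | q | q | q | q | q <;> rcases q2 with r | r | r | r | r | r
    all_goals first
      | (exfalso; omega)
      | exact Or.inl ⟨code (by omega) (by omega), code (by omega) (by omega)⟩
      | exact Or.inr ⟨code (by omega) (by omega), code (by omega) (by omega)⟩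

theorem noinc1 : NoInc (G1 M) lo1 hi1 m1 := by
  intro k w l _ _ w0 wl hadj hinc
  have S : ∀ i, ∃ x : ℕ, i < l → m1 (w i) (w (i + 1)) = x ∧ St (w i) (w (i + 1)) x := by
    intro i
    by_cases h : i < l
    · obtain ⟨x, hx⟩ := st (hadj i h)
      exact ⟨x, fun _ => hx⟩
    · exact ⟨0, fun h' => absurd h' h⟩
  choose x hx using S
  have I : ∀ i, i + 1 < l → x i < x (i + 1) := by
    intro i h
    have := hinc i h
    rw [(hx i (by omega)).1, (hx (i + 1) h).1] at this
    exact_mod_cast this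
  have p := poles k
  have ends : (ty (w 0) = 1 ∧ ty (w l) = 2 ∧ ix (w l) < ix (w 0)) ∨
      (ty (w 0) = 1 ∧ ty (w l) = 3 ∧ ix (w 0) < ix (w l)) ∨
      (ty (w l) = 1 ∧ ty (w 0) = 2 ∧ ix (w 0) < ix (w l)) ∨
      (ty (w l) = 1 ∧ ty (w 0) = 3 ∧ ix (w l) < ix (w 0)) := by
    rw [w0, wl]
    unfold lo1 hi1
    split_ifs <;> omega
  clear p
  have b0 := (bnd (w 0)).1
  have b1 := (bnd (w 1)).1
  have b2 := (bnd (w 2)).1
  have b3 := (bnd (w 3)).1
  have b4 := (bnd (w 4)).1
  have b5 := (bnd (w 5)).1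
  rcases Nat.eq_zero_or_pos l with rfl | l0
  · omega
  have q0 := (hx 0 l0).2
  simp only [zero_add] at q0
  rcases Nat.lt_or_ge l 2 with l1 | l1
  · have : l = 1 := by omega
    subst this
    unfold St at q0; omega
  have q1 := (hx 1 l1).2
  have i0 := I 0 l1
  simp only [zero_add, Nat.reduceAdd] at q1 i0
  rcases Nat.lt_or_ge l 3 with l2 | l2
  · have : l = 2 := by omega
    subst this
    rcases q0 with q | q | q | q | q | q <;> rcases q1 with r | r | r | r | r | r <;> omega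
  have q2 := (hx 2 l2).2
  have i1 := I 1 l2
  simp only [Nat.reduceAdd] at q2 i1
  rcases Nat.lt_or_ge l 4 with l3 | l3
  · have : l = 3 := by omega
    subst this
    rcases q0 with q | q | q | q | q | q <;> rcases q1 with r | r | r | r | r | r <;>
      first | omega | (rcases q2 with s | s | s | s | s | s <;> omega)
  have q3 := (hx 3 l3).2
  have i2 := I 2 l3
  simp only [Nat.reduceAdd] at q3 i2
  rcases Nat.lt_or_ge l 5 with l4 | l4
  · have : l = 4 := by omega
    subst this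
    rcases q0 with q | q | q | q | q | q <;> rcases q1 with r | r | r | r | r | r <;>
      first | omega | (rcases q2 with s | s | s | s | s | s <;>
        first | omega | (rcases q3 with t | t | t | t | t | t <;> omega))
  have q4 := (hx 4 l4).2
  have i3 := I 3 l4
  simp only [Nat.reduceAdd] at q4 i3
  clear ends
  rcases q0 with q | q | q | q | q | q <;> rcases q1 with r | r | r | r | r | r <;>
    first | omega | (rcases q2 with s | s | s | s | s | s <;>
      first | omega | (rcases q3 with t | t | t | t | t | t <;>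
        first | omega | (rcases q4 with u | u | u | u | u | u <;> omega)))

theorem good1 (M : ℕ) : ∃ f : Bs M ⊕ Md M → Bs M ⊕ Md M → ℝ, (∀ a b, f a b = f b a) ∧
    GoodS (G1 M) f := by
  have hy := hyp1 (M := M) (fun k => (Finite.equivFin _ k).val) (fun a b e =>
      (Finite.equivFin _).injective (Fin.ext e))
  refine ⟨_, hy.symm, hy.good noinc1 ?_⟩
  intro L v hc hb
  exfalso
  choose w hv using hb
  obtain ⟨_, ⟨t, rfl⟩, hmax⟩ := Set.exists_max_image (Set.range w) ty (Set.toFinite _)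
    (Set.range_nonempty _)
  have m1 := hmax _ ⟨t + 1, rfl⟩
  have m2 := hmax _ ⟨t - 1, rfl⟩
  have a1 := hc.2.2.1 t
  have a2 := hc.2.2.1 (t - 1)
  rw [sub_add_cancel] at a2
  rw [hv, hv] at a1 a2
  obtain ⟨x, -, q1⟩ := st a1
  obtain ⟨y, -, q2⟩ := st a2
  have := bnd (w (t + 1))
  have := bnd (w (t - 1))
  refine hc.2.2.2 (t - 1) (t + 1) (by omega) (by have := hc.1; omega) ?_
  rw [hv, hv]
  congr 1
  unfold St at q1 q2
  exact code (by omega) (by omega)

end Pool.Agent.H.MP_67e79f_co
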